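import Pool.Agent.MP_941b23_mp.F2e
import Pool.Agent.MP_941b23_mp.E5
import Pool.Agent.MP_941b23_mp.E8

/-!
# MP_941b23_mp, Q1: the mean eigenvalue distribution of `M₁` in the quartic Hermitian two-matrix
model converges weakly to the first component of the minimiser of the vector equilibrium problem.

The definitions are in `Pool/Agent/MP_941b23_mp/Model.lean`.
-/

namespace Pool.Agent.Results.MP_941b23_mp.EigenvalueLimit

open MeasureTheory Filter Topology Pool.Agent.MP_941b23_mp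

/-- Full positive answer to Q1. For every even polynomial `V` of positive degree with positive
leading coefficient, every real `α` and every `τ > 0`: the weight of the model is integrable and
its integral is positive; the minimisation problem for `E` has exactly one minimiser
`(μ₁, μ₂, μ₃)`; and the mean eigenvalue distribution of `M₁` converges weakly to `μ₁` as `n → ∞`
through all positive integers. -/
theorem result (V : Polynomial ℝ) (hV : ∀ x, V.eval (-x) = V.eval x)
    (hdeg : 0 < V.natDegree) (hlead : 0 < V.leadingCoeff) (α τ : ℝ) (hτ : 0 < τ) :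
    (∀ n : ℕ, 0 < n → Integrable
        (fun p : (Fin n → Fin n → ℝ) × (Fin n → Fin n → ℝ) => wgt n V α τ p.1 p.2) ∧
      0 < partZ n V α τ) ∧
    ∃ μ₁ μ₂ μ₃ : Measure ℝ, IsMinimiser α τ (fun x => V.eval x) μ₁ μ₂ μ₃ ∧
      (∀ ν₁ ν₂ ν₃ : Measure ℝ, IsMinimiser α τ (fun x => V.eval x) ν₁ ν₂ ν₃ →
        ν₁ = μ₁ ∧ ν₂ = μ₂ ∧ ν₃ = μ₃) ∧
      ∀ φ : ℝ → ℝ, Continuous φ → (∃ C, ∀ x, |φ x| ≤ C) →
        Tendsto (fun n : ℕ => meanEig n V α τ φ) atTop (𝓝 (∫ x, φ x ∂μ₁)) := by
  have hP := f2_pot V hV hdeg hlead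
  obtain ⟨μ₁, μ₂, μ₃, hmin⟩ := exists_min (α := α) hτ hP (f2_dbl V hV hdeg hlead)
  refine ⟨fun n hn => ?_, μ₁, μ₂, μ₃, hmin, fun ν₁ ν₂ ν₃ hν => min_unique hτ hP hν hmin,
    fun φ hφ hb => main_theorem V hV hdeg hlead α τ hτ μ₁ μ₂ μ₃ hmin φ hφ hb⟩
  have h := wgt_integrable n hn V hV hdeg hlead α τ hτ
  exact ⟨h, f2_partZ_pos h⟩

end Pool.Agent.Results.MP_941b23_mp.EigenvalueLimit
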